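import Pool.Agent.H14.AVS.S2

/-!
# AVS, module NFO: unimodular ternary forms with determinant `-ε²` over a Henselian local ring
-/

set_option autoImplicit false

namespace Pool.AVS.NFO

open Polynomial Matrix Pool.AVR

theorem sqrt_unit {R : Type} [CommRing R] [HenselianLocalRing R] (h2 : IsUnit (2 : R)) (β d : R)
    (hβ : IsUnit β) (hd : d ∈ IsLocalRing.maximalIdeal R) :
    ∃ r, r ^ 2 = β ^ 2 + d ∧ r - β ∈ IsLocalRing.maximalIdeal R := by
  have hm : (X ^ 2 - C (β ^ 2 + d) : R[X]).Monic := monic_X_pow_sub_C _ two_ne_zero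
  obtain ⟨r, hr, hr2⟩ := HenselianLocalRing.is_henselian (X ^ 2 - C (β ^ 2 + d) : R[X]) hm β
    (by
      have : (X ^ 2 - C (β ^ 2 + d) : R[X]).eval β = -d := by
        simp
      rw [this]
      exact neg_mem hd)
    (by
      have : (derivative (X ^ 2 - C (β ^ 2 + d) : R[X])).eval β = 2 * β := by
        rw [derivative_sub, derivative_C, derivative_X_pow]
        simp
      rw [this]
      exact h2.mul hβ)
  refine ⟨r, ?_, hr2⟩
  have h : (X ^ 2 - C (β ^ 2 + d) : R[X]).eval r = 0 := hr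
  simp only [eval_sub, eval_pow, eval_X, eval_C] at h
  linear_combination h

theorem iso_ff {k : Type} [Field k] [Finite k] (h2 : (2 : k) ≠ 0)
    (G : Matrix (Fin 3) (Fin 3) k) (hG : Gᵀ = G) :
    ∃ z : Fin 3 → k, z ≠ 0 ∧ bil G z z = 0 := by
  have h10 : G 1 0 = G 0 1 := by
    conv_lhs => rw [← hG]
    rfl
  have h20 : G 2 0 = G 0 2 := by
    conv_lhs => rw [← hG]
    rfl
  have h21 : G 2 1 = G 1 2 := by
    conv_lhs => rw [← hG]
    rfl
  by_cases h0 : G 0 0 = 0
  · refine ⟨![1, 0, 0], ?_, ?_⟩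
    · intro h
      have := congrFun h 0
      simp at this
    · simp [bil, Matrix.mulVec, dotProduct, Fin.sum_univ_three, h0]
  by_cases hA : G 0 0 * G 1 1 - G 0 1 ^ 2 = 0
  · refine ⟨![-G 0 1, G 0 0, 0], ?_, ?_⟩
    · intro h
      have := congrFun h 1
      simp at this
      exact h0 this
    · simp [bil, Matrix.mulVec, dotProduct, Fin.sum_univ_three, h10]
      linear_combination G 0 0 * hA
  · have : Fintype k := Fintype.ofFinite k
    have hch : ringChar k ≠ 2 := by
      intro h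
      apply h2
      have : CharP k 2 := by
        rw [← h]
        exact ringChar.charP k
      exact_mod_cast CharP.cast_eq_zero k 2
    have hodd := FiniteField.odd_card_of_char_ne_two hch
    -- `G00 q = (G00 x + G01 y + G02 z)² + D y² + 2 E y z + F z²`
    set D := G 0 0 * G 1 1 - G 0 1 ^ 2 with hD
    set E := G 0 0 * G 1 2 - G 0 1 * G 0 2 with hE
    set F := G 0 0 * G 2 2 - G 0 2 ^ 2 with hF
    -- times `D`: `D (..)² + (D y + E z)² + (D F - E²) z²`
    obtain ⟨u, v, huv⟩ := FiniteField.exists_root_sum_quadratic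
      (f := C D * X ^ 2 + C (D * F - E ^ 2)) (g := (X ^ 2 : k[X]))
      (by
        rw [degree_add_eq_left_of_degree_lt]
        · rw [degree_C_mul_X_pow 2 hA]; rfl
        · rw [degree_C_mul_X_pow 2 hA]
          exact lt_of_le_of_lt degree_C_le (by decide))
      (by rw [degree_X_pow]; rfl) hodd
    simp only [eval_add, eval_mul, eval_C, eval_pow, eval_X] at huv
    refine ⟨![(u - G 0 1 * ((v - E) / D) - G 0 2) / G 0 0, (v - E) / D, 1], ?_, ?_⟩
    · intro h
      have := congrFun h 2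
      simp at this
    · simp [bil, Matrix.mulVec, dotProduct, Fin.sum_univ_three, h10, h20, h21]
      have e1 : G 0 0 * ((u - G 0 1 * ((v - E) / D) - G 0 2) / G 0 0) =
          u - G 0 1 * ((v - E) / D) - G 0 2 := by
        field_simp
      have e2 : D * ((v - E) / D) = v - E := by
        field_simp
      generalize (u - G 0 1 * ((v - E) / D) - G 0 2) / G 0 0 = x at e1 ⊢
      generalize (v - E) / D = y at e1 e2 ⊢
      have key : G 0 0 * D * (x * (G 0 0 * x + G 0 1 * y + G 0 2) +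
          y * (G 0 1 * x + G 1 1 * y + G 1 2) + (G 0 2 * x + G 1 2 * y + G 2 2)) = 0 := by
        have e3 : G 0 0 * x + G 0 1 * y + G 0 2 = u := by linear_combination e1
        have e4 : D * y + E = v := by linear_combination e2
        have : G 0 0 * D * (x * (G 0 0 * x + G 0 1 * y + G 0 2) +
          y * (G 0 1 * x + G 1 1 * y + G 1 2) + (G 0 2 * x + G 1 2 * y + G 2 2)) =
          D * (G 0 0 * x + G 0 1 * y + G 0 2) ^ 2 + (D * y + E) ^ 2 + (D * F - E ^ 2) := by
          rw [hD, hE, hF]; ring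
        rw [this, e3, e4]
        linear_combination huv
      have hne : G 0 0 * D ≠ 0 := mul_ne_zero h0 hA
      exact (mul_eq_zero.mp key).resolve_left hne

theorem gram {R : Type} [CommRing R] (G : Matrix (Fin 3) (Fin 3) R) (hG : Gᵀ = G) (ε e : R)
    (he : ε * e = 1) (hdet : G.det = -ε ^ 2) (z v : Fin 3 → R) (hz : bil G z z = 0)
    (hzv : bil G z v = 1) (hv : bil G v v = 0) :
    ∃ κ : Matrix (Fin 3) (Fin 3) R, κᵀ * G * κ = AA R := by
  have h10 : G 1 0 = G 0 1 := by
    conv_lhs => rw [← hG]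
    rfl
  have h20 : G 2 0 = G 0 2 := by
    conv_lhs => rw [← hG]
    rfl
  have h21 : G 2 1 = G 1 2 := by
    conv_lhs => rw [← hG]
    rfl
  simp only [bil, Matrix.mulVec, dotProduct, Fin.sum_univ_three, h10, h20, h21] at hz hzv hv
  rw [Matrix.det_fin_three] at hdet
  simp only [h10, h20, h21] at hdet
  set w : Fin 3 → R := crossProduct (G *ᵥ z) (G *ᵥ v) with hw
  refine ⟨!![z 0, e * w 0, v 0; z 1, e * w 1, v 1; z 2, e * w 2, v 2], ?_⟩
  have hw0 : w 0 = (G 0 1 * z 0 + G 1 1 * z 1 + G 1 2 * z 2) * (G 0 2 * v 0 + G 1 2 * v 1 + G 2 2 * v 2) -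
      (G 0 2 * z 0 + G 1 2 * z 1 + G 2 2 * z 2) * (G 0 1 * v 0 + G 1 1 * v 1 + G 1 2 * v 2) := by
    rw [hw, cross_apply]
    simp [Matrix.mulVec, dotProduct, Fin.sum_univ_three, h10, h20, h21]
  have hw1 : w 1 = (G 0 2 * z 0 + G 1 2 * z 1 + G 2 2 * z 2) * (G 0 0 * v 0 + G 0 1 * v 1 + G 0 2 * v 2) -
      (G 0 0 * z 0 + G 0 1 * z 1 + G 0 2 * z 2) * (G 0 2 * v 0 + G 1 2 * v 1 + G 2 2 * v 2) := by
    rw [hw, cross_apply]
    simp [Matrix.mulVec, dotProduct, Fin.sum_univ_three, h10, h20, h21]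
  have hw2 : w 2 = (G 0 0 * z 0 + G 0 1 * z 1 + G 0 2 * z 2) * (G 0 1 * v 0 + G 1 1 * v 1 + G 1 2 * v 2) -
      (G 0 1 * z 0 + G 1 1 * z 1 + G 1 2 * z 2) * (G 0 0 * v 0 + G 0 1 * v 1 + G 0 2 * v 2) := by
    rw [hw, cross_apply]
    simp [Matrix.mulVec, dotProduct, Fin.sum_univ_three, h10, h20, h21]
  have hww : w 0 * (G 0 0 * w 0 + G 0 1 * w 1 + G 0 2 * w 2) +
      w 1 * (G 0 1 * w 0 + G 1 1 * w 1 + G 1 2 * w 2) +
      w 2 * (G 0 2 * w 0 + G 1 2 * w 1 + G 2 2 * w 2) = ε ^ 2 := by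
    have : w 0 * (G 0 0 * w 0 + G 0 1 * w 1 + G 0 2 * w 2) +
      w 1 * (G 0 1 * w 0 + G 1 1 * w 1 + G 1 2 * w 2) +
      w 2 * (G 0 2 * w 0 + G 1 2 * w 1 + G 2 2 * w 2) =
      (G 0 0 * G 1 1 * G 2 2 - G 0 0 * G 1 2 * G 1 2 - G 0 1 * G 0 1 * G 2 2 +
        G 0 1 * G 1 2 * G 0 2 + G 0 2 * G 0 1 * G 1 2 - G 0 2 * G 1 1 * G 0 2) *
      ((z 0 * (G 0 0 * z 0 + G 0 1 * z 1 + G 0 2 * z 2) + z 1 * (G 0 1 * z 0 + G 1 1 * z 1 + G 1 2 * z 2) +
        z 2 * (G 0 2 * z 0 + G 1 2 * z 1 + G 2 2 * z 2)) *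
       (v 0 * (G 0 0 * v 0 + G 0 1 * v 1 + G 0 2 * v 2) + v 1 * (G 0 1 * v 0 + G 1 1 * v 1 + G 1 2 * v 2) +
        v 2 * (G 0 2 * v 0 + G 1 2 * v 1 + G 2 2 * v 2)) -
       (z 0 * (G 0 0 * v 0 + G 0 1 * v 1 + G 0 2 * v 2) + z 1 * (G 0 1 * v 0 + G 1 1 * v 1 + G 1 2 * v 2) +
        z 2 * (G 0 2 * v 0 + G 1 2 * v 1 + G 2 2 * v 2)) ^ 2) := by
      rw [hw0, hw1, hw2]; ring
    rw [this, hz, hzv, hv, hdet]; ring
  have hzw : w 0 * (G 0 0 * z 0 + G 0 1 * z 1 + G 0 2 * z 2) +
      w 1 * (G 0 1 * z 0 + G 1 1 * z 1 + G 1 2 * z 2) +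
      w 2 * (G 0 2 * z 0 + G 1 2 * z 1 + G 2 2 * z 2) = 0 := by
    rw [hw0, hw1, hw2]; ring
  have hvw : w 0 * (G 0 0 * v 0 + G 0 1 * v 1 + G 0 2 * v 2) +
      w 1 * (G 0 1 * v 0 + G 1 1 * v 1 + G 1 2 * v 2) +
      w 2 * (G 0 2 * v 0 + G 1 2 * v 1 + G 2 2 * v 2) = 0 := by
    rw [hw0, hw1, hw2]; ring
  clear_value w
  ext i j
  fin_cases i <;> fin_cases j <;>
    simp [AA, Matrix.mul_apply, Fin.sum_univ_three, Matrix.transpose_apply, h10, h20, h21]
  · linear_combination hz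
  · linear_combination e * hzw
  · linear_combination hzv
  · linear_combination e * hzw
  · linear_combination e ^ 2 * hww + (ε * e + 1) * he
  · linear_combination e * hvw
  · linear_combination hzv
  · linear_combination e * hvw
  · linear_combination hv

theorem hyp {R : Type} [CommRing R] [HenselianLocalRing R]
    [Finite (IsLocalRing.ResidueField R)] (h2 : IsUnit (2 : R)) (G : Matrix (Fin 3) (Fin 3) R)
    (hG : Gᵀ = G) (hdet : IsUnit G.det) :
    ∃ z v : Fin 3 → R, bil G z z = 0 ∧ bil G z v = 1 ∧ bil G v v = 0 := by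
  have hsym : ∀ u v : Fin 3 → R, bil G u v = bil G v u := by
    intro u v
    unfold bil
    rw [Matrix.dotProduct_mulVec, ← Matrix.mulVec_transpose, hG, dotProduct_comm]
  have h2k : (2 : IsLocalRing.ResidueField R) ≠ 0 := by
    have := h2.map (IsLocalRing.residue R)
    rw [map_ofNat] at this
    exact this.ne_zero
  obtain ⟨zb, hzb0, hzb⟩ := iso_ff h2k (G.map (IsLocalRing.residue R)) (by
    ext i j
    show IsLocalRing.residue R (G j i) = IsLocalRing.residue R (G i j)
    have : G j i = G i j := by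
      conv_rhs => rw [← hG]
      rfl
    rw [this])
  have hlift : ∃ z0 : Fin 3 → R, ∀ i, IsLocalRing.residue R (z0 i) = zb i :=
    ⟨fun i => (Ideal.Quotient.mk_surjective (zb i)).choose,
      fun i => (Ideal.Quotient.mk_surjective (zb i)).choose_spec⟩
  obtain ⟨z0, hz0⟩ := hlift
  have hmv : ∀ j, IsLocalRing.residue R ((G *ᵥ z0) j) = (G.map (IsLocalRing.residue R) *ᵥ zb) j := by
    intro j
    simp [Matrix.mulVec, dotProduct, Fin.sum_univ_three, hz0]
  have hγ : bil G z0 z0 ∈ IsLocalRing.maximalIdeal R := by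
    rw [← IsLocalRing.residue_eq_zero_iff, ← hzb]
    unfold bil
    simp only [dotProduct, map_sum, map_mul, hz0, hmv]
  -- a coordinate with `(G z0) j` a unit
  have hj : ∃ j, IsUnit ((G *ᵥ z0) j) := by
    by_contra hcon
    push Not at hcon
    apply hzb0
    have h0 : G.map (IsLocalRing.residue R) *ᵥ zb = 0 := by
      funext j
      rw [← hmv j]
      have := hcon j
      simpa using (IsLocalRing.residue_eq_zero_iff _).mpr
        ((IsLocalRing.mem_maximalIdeal _).mpr this)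
    have hdb : IsUnit (G.map (IsLocalRing.residue R)).det := by
      have := hdet.map (IsLocalRing.residue R)
      rwa [RingHom.map_det] at this
    have hinv : (G.map (IsLocalRing.residue R))⁻¹ * (G.map (IsLocalRing.residue R)) = 1 :=
      Matrix.nonsing_inv_mul _ hdb
    have : zb = ((G.map (IsLocalRing.residue R))⁻¹ * (G.map (IsLocalRing.residue R))) *ᵥ zb := by
      rw [hinv, Matrix.one_mulVec]
    rw [this, ← Matrix.mulVec_mulVec, h0, Matrix.mulVec_zero]
  obtain ⟨j, hj⟩ := hj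
  set v0 : Fin 3 → R := Pi.single j 1 with hv0
  have hβ : bil G z0 v0 = (G *ᵥ z0) j := by
    rw [hsym]
    unfold bil
    rw [hv0, single_one_dotProduct]
  obtain ⟨r, hr, hr2⟩ := sqrt_unit h2 (bil G z0 v0) (-(bil G v0 v0 * bil G z0 z0))
    (by rw [hβ]; exact hj) (neg_mem (Ideal.mul_mem_left _ _ hγ))
  set α := bil G v0 v0
  set β := bil G z0 v0
  set γ := bil G z0 z0
  have hβu : IsUnit β := by rw [hβ]; exact hj
  have hu : IsUnit (β + r) := by
    have h : IsUnit (2 * β) := h2.mul hβu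
    have h' : β + r = 2 * β + (r - β) := by ring
    rw [h']
    by_contra hcon
    have h3 : 2 * β + (r - β) ∈ IsLocalRing.maximalIdeal R := (IsLocalRing.mem_maximalIdeal _).mpr hcon
    have h4 : 2 * β ∈ IsLocalRing.maximalIdeal R := by
      have := sub_mem h3 hr2
      simpa using this
    exact (IsLocalRing.mem_maximalIdeal _).mp h4 h
  obtain ⟨i, hi⟩ := hu.exists_left_inv
  have hlin : ∀ (x y : Fin 3 → R) (s : R), bil G (x + s • y) (x + s • y) =
      bil G x x + 2 * s * bil G x y + s ^ 2 * bil G y y := by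
    intro x y s
    have := hsym x y
    unfold bil at this ⊢
    simp only [Matrix.mulVec_add, Matrix.mulVec_smul, dotProduct_add, add_dotProduct,
      smul_dotProduct, dotProduct_smul, smul_eq_mul]
    linear_combination (-s) * this
  have hlin2 : ∀ (x y u : Fin 3 → R) (s : R), bil G (x + s • y) u = bil G x u + s * bil G y u := by
    intro x y u s
    unfold bil
    simp only [add_dotProduct, smul_dotProduct, smul_eq_mul]
  have hlin3 : ∀ (x u : Fin 3 → R) (s : R), bil G x (s • u) = s * bil G x u := by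
    intro x u s
    unfold bil
    simp only [Matrix.mulVec_smul, dotProduct_smul, smul_eq_mul]
  have hlin4 : ∀ (x y u : Fin 3 → R) (s : R), bil G u (x + s • y) = bil G u x + s * bil G u y := by
    intro x y u s
    rw [hsym, hlin2, hsym x u, hsym y u]
  set s : R := -γ * i with hs
  have hz : bil G (z0 + s • v0) (z0 + s • v0) = 0 := by
    rw [hlin]
    change γ + 2 * s * β + s ^ 2 * α = 0
    have h1 : i ^ 2 * (r ^ 2 - β ^ 2 + α * γ) = 0 := by
      rw [hr]; ring
    rw [hs]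
    linear_combination (γ * h1) + (-γ * i * (β + r) - γ + 2 * γ * i * β) * hi
  have hzv : bil G (z0 + s • v0) v0 = β + s * α := by
    rw [hlin2]
  have hu2 : IsUnit (β + s * α) := by
    by_contra hcon
    have h3 : β + s * α ∈ IsLocalRing.maximalIdeal R := (IsLocalRing.mem_maximalIdeal _).mpr hcon
    have h4 : β ∈ IsLocalRing.maximalIdeal R := by
      have h5 : s * α ∈ IsLocalRing.maximalIdeal R := by
        rw [hs]
        exact Ideal.mul_mem_right _ _ (Ideal.mul_mem_right _ _ (neg_mem hγ))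
      have := sub_mem h3 h5
      simpa using this
    exact (IsLocalRing.mem_maximalIdeal _).mp h4 hβu
  obtain ⟨l, hl⟩ := hu2.exists_left_inv
  obtain ⟨h, hh⟩ := h2.exists_left_inv
  set z := z0 + s • v0 with hzdef
  set v1 := l • v0 with hv1
  have hzv1 : bil G z v1 = 1 := by
    rw [hv1, hlin3, hzv, hl]
  refine ⟨z, v1 + (-(h * bil G v1 v1)) • z, hz, ?_, ?_⟩
  · rw [hlin4, hz, hzv1]; ring
  · rw [hlin, hz, hsym v1 z, hzv1]
    linear_combination (-(bil G v1 v1)) * hh

end Pool.AVS.NFO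

namespace Pool.AVS

open Polynomial Matrix Pool.AVR

theorem nfo_thm : NFOStmt := by
  intro L _ O π hL G ε hG hGI hε hdet
  have := hL.hens
  have := hL.fin
  have h2 : IsUnit (2 : O) := by
    refine IsUnit.of_mul_eq_one (⟨(2 : L)⁻¹, hL.two.2⟩ : O) ?_
    apply Subtype.ext
    show (2 : L) * (2 : L)⁻¹ = 1
    exact mul_inv_cancel₀ hL.two.1
  obtain ⟨hε0, hε1, hε2⟩ := hε
  set G' : Matrix (Fin 3) (Fin 3) O := Matrix.of fun i j => ⟨G i j, hGI i j⟩ with hG'
  have hGm : G'.map (O.subtype) = G := by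
    ext i j
    rfl
  have hGs : G'ᵀ = G' := by
    ext i j
    show G j i = G i j
    conv_rhs => rw [← hG]
    rfl
  set ε' : O := ⟨ε, hε1⟩ with hε'
  set e' : O := ⟨ε⁻¹, hε2⟩ with he'
  have hee : ε' * e' = 1 := by
    apply Subtype.ext
    show ε * ε⁻¹ = 1
    exact mul_inv_cancel₀ hε0
  have hdet' : G'.det = -ε' ^ 2 := by
    have : O.subtype G'.det = O.subtype (-ε' ^ 2) := by
      rw [RingHom.map_det]
      show (G'.map O.subtype).det = -ε ^ 2
      rw [hGm, hdet]
    exact Subtype.ext this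
  have hunit : IsUnit G'.det := by
    rw [hdet']
    exact ((IsUnit.of_mul_eq_one _ hee).pow 2).neg
  obtain ⟨z, v, hz, hzv, hv⟩ := NFO.hyp h2 G' hGs hunit
  obtain ⟨κ, hκ⟩ := NFO.gram G' hGs ε' e' hee hdet' z v hz hzv hv
  refine ⟨κ.map O.subtype, ⟨fun i j => (κ i j).2, ?_⟩, ?_⟩
  · have hd : κ.det * (κ.det * ε' ^ 2) = 1 := by
      have := congrArg Matrix.det hκ
      rw [Matrix.det_mul, Matrix.det_mul, Matrix.det_transpose, hdet'] at this
      have hA : (AA O).det = -1 := by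
        simp [AA, Matrix.det_fin_three]
      rw [hA] at this
      linear_combination -this
    have hd' : (κ.map O.subtype).det = ((κ.det : O) : L) := by
      have := RingHom.map_det O.subtype κ
      exact this.symm
    have hdL : ((κ.det : O) : L) * ((κ.det * ε' ^ 2 : O) : L) = 1 := by
      have := congrArg O.subtype hd
      simpa using this
    have hne : ((κ.det : O) : L) ≠ 0 := left_ne_zero_of_mul_eq_one hdL
    rw [hd']
    refine ⟨hne, (κ.det).2, ?_⟩
    have : (((κ.det : O) : L))⁻¹ = ((κ.det * ε' ^ 2 : O) : L) :=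
      inv_eq_of_mul_eq_one_right hdL
    rw [this]
    exact (κ.det * ε' ^ 2).2
  · have := congrArg (fun M : Matrix (Fin 3) (Fin 3) O => M.map O.subtype) hκ
    simp only [Matrix.map_mul, Matrix.transpose_map] at this
    rw [hGm] at this
    rw [this]
    ext i j
    fin_cases i <;> fin_cases j <;> simp [AA]

end Pool.AVS
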