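import Pool.Agent.H14.AVR.Stmts4
import Pool.Agent.H15.AVS.LVF

/-!
# AVS, module LDE: the local situation for discriminants of valuation at most one
-/

set_option autoImplicit false

namespace Pool.AVS

open Polynomial Matrix Pool.AVR

namespace LDE

open LVF

theorem nE_equiv {R S : Type} [CommRing R] [CommRing S] (e : R ≃+* S) (a b c : R) :
    nE R a b c = nE S (e a) (e b) (e c) := by
  have h : {p : S × S | p.2 ^ 2 = p.1 ^ 3 + e a * p.1 ^ 2 + e b * p.1 + e c} =
      (Prod.map e e) '' {p : R × R | p.2 ^ 2 = p.1 ^ 3 + a * p.1 ^ 2 + b * p.1 + c} := by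
    ext ⟨x, y⟩
    constructor
    · intro h
      refine ⟨(e.symm x, e.symm y), ?_, by simp⟩
      simp only [Set.mem_ofPred_eq] at h ⊢
      apply e.injective
      simpa using h
    · rintro ⟨⟨u, v⟩, h, huv⟩
      simp only [Prod.map_apply, Prod.mk.injEq] at huv
      obtain ⟨rfl, rfl⟩ := huv
      simp only [Set.mem_ofPred_eq] at h ⊢
      have := congrArg e h
      simpa using this
  rw [nE, nE, h, Set.ncard_image_of_injective _ (e.injective.prodMap e.injective)]

theorem dB_map {R S : Type} [CommRing R] [CommRing S] (φ : R →+* S)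
    (B : Matrix (Fin 3) (Fin 3) R) : dB (B.map φ) = φ (dB B) := by
  simp only [dB, disc, ia_map, ib_map, ic_map, map_sub, map_add, map_mul, map_pow]
  rw [map_ofNat φ 4, map_ofNat φ 18, map_ofNat φ 27]

theorem bil_map {R S : Type} [CommRing R] [CommRing S] (φ : R →+* S)
    (B : Matrix (Fin 3) (Fin 3) R) (u v : Fin 3 → R) :
    bil (B.map φ) (fun i => φ (u i)) (fun i => φ (v i)) = φ (bil B u v) := by
  simp [bil, dotProduct, Matrix.mulVec, Fin.sum_univ_three]

theorem mulVec_map {R S : Type} [CommRing R] [CommRing S] (φ : R →+* S)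
    (B : Matrix (Fin 3) (Fin 3) R) (u : Fin 3 → R) (i : Fin 3) :
    (B.map φ *ᵥ (fun i => φ (u i))) i = φ ((B *ᵥ u) i) := by
  simp [dotProduct, Matrix.mulVec, Fin.sum_univ_three]

/-- representatives of the lines of smooth points -/
theorem orbits {k : Type} [Field k] [Finite k] (B : Matrix (Fin 3) (Fin 3) k) :
    ∃ (M : ℕ) (r : Fin M → (Fin 3 → k) × k), (∀ i, r i ∈ SmF B) ∧
      (∀ i j, i ≠ j → ¬ ∃ t : k, t ≠ 0 ∧ (r j).1 = t • (r i).1 ∧ (r j).2 = t * (r i).2) ∧
      (SmF B).ncard ≤ (Nat.card k - 1) * M := by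
  classical
  let st : Setoid (SmF B) :=
    { r := fun s s' => ∃ t : k, t ≠ 0 ∧ (s'.1).1 = t • (s.1).1 ∧ (s'.1).2 = t * (s.1).2
      iseqv := by
        refine ⟨fun s => ⟨1, one_ne_zero, by simp, by simp⟩, ?_, ?_⟩
        · rintro s s' ⟨t, ht, h1, h2⟩
          refine ⟨t⁻¹, inv_ne_zero ht, ?_, ?_⟩
          · rw [h1, smul_smul, inv_mul_cancel₀ ht, one_smul]
          · rw [h2, ← mul_assoc, inv_mul_cancel₀ ht, one_mul]
        · rintro s s' s'' ⟨t, ht, h1, h2⟩ ⟨u, hu, h3, h4⟩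
          refine ⟨u * t, mul_ne_zero hu ht, ?_, ?_⟩
          · rw [h3, h1, smul_smul]
          · rw [h4, h2, mul_assoc] }
  have : Finite (SmF B) := Set.Finite.to_subtype (Set.toFinite _)
  have hout : ∀ s : SmF B, ∃ t : kˣ, (s.1).1 = (t : k) • ((Quotient.out (Quotient.mk st s)).1).1 ∧
      (s.1).2 = (t : k) * ((Quotient.out (Quotient.mk st s)).1).2 := by
    intro s
    obtain ⟨t, ht, h1, h2⟩ : st.r (Quotient.out (Quotient.mk st s)) s :=
      Quotient.exact (Quotient.out_eq (Quotient.mk st s))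
    exact ⟨Units.mk0 t ht, h1, h2⟩
  choose τ hτ1 hτ2 using hout
  refine ⟨Nat.card (Quotient st),
    fun i => ((Quotient.out ((Finite.equivFin (Quotient st)).symm i)).1), fun i => Subtype.prop _,
    ?_, ?_⟩
  · rintro i j hij ⟨t, ht, h1, h2⟩
    apply hij
    apply (Finite.equivFin (Quotient st)).symm.injective
    have h3 : st.r (Quotient.out ((Finite.equivFin (Quotient st)).symm i))
        (Quotient.out ((Finite.equivFin (Quotient st)).symm j)) := ⟨t, ht, h1, h2⟩
    have h4 := Quotient.sound (s := st) h3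
    rwa [Quotient.out_eq, Quotient.out_eq] at h4
  · have hinj : Function.Injective (fun s : SmF B => (τ s, Quotient.mk st s)) := by
      intro s s' h
      simp only [Prod.mk.injEq] at h
      obtain ⟨h1, h2⟩ := h
      apply Subtype.ext
      apply Prod.ext
      · rw [hτ1 s, hτ1 s', h1, h2]
      · rw [hτ2 s, hτ2 s', h1, h2]
    have h := Nat.card_le_card_of_injective _ hinj
    rw [Nat.card_prod, Nat.card_units] at h
    rwa [Nat.card_coe_set_eq] at h

/-- polynomials represent the residue classes -/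
theorem lift_IP (hPOL : POLStmt) {F : Type} [Field F] {P : F[X]} (hP : Irreducible P)
    (x : RatFunc F) (hx : x ∈ IP P) :
    ∃ p : F[X], (x - algebraMap F[X] (RatFunc F) p) / algebraMap F[X] (RatFunc F) P ∈ IP P := by
  obtain ⟨-, hop, hdv, -⟩ := hPOL F
  have hcop : IsCoprime x.denom P := (hP.coprime_iff_not_dvd.mpr hx).symm
  obtain ⟨u, v, huv⟩ := hcop
  refine ⟨x.num * u, ?_⟩
  have hd0 : algebraMap F[X] (RatFunc F) x.denom ≠ 0 :=
    RatFunc.algebraMap_ne_zero x.denom_ne_zero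
  have hP0 : algebraMap F[X] (RatFunc F) P ≠ 0 := RatFunc.algebraMap_ne_zero hP.ne_zero
  have hxx : x * algebraMap F[X] (RatFunc F) x.denom = algebraMap F[X] (RatFunc F) x.num := by
    conv_lhs => rw [← RatFunc.num_div_denom x]
    rw [RatFunc.num_div_denom x]
    conv_lhs =>
      rw [show x = algebraMap F[X] (RatFunc F) x.num / algebraMap F[X] (RatFunc F) x.denom from
        (RatFunc.num_div_denom x).symm]
    rw [RatFunc.num_div_denom x]
    conv_rhs => rw [← div_mul_cancel₀ (algebraMap F[X] (RatFunc F) x.num) hd0, RatFunc.num_div_denom x]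
  have h1 : (x - algebraMap F[X] (RatFunc F) (x.num * u)) / algebraMap F[X] (RatFunc F) P =
      algebraMap F[X] (RatFunc F) v * x := by
    rw [div_eq_iff hP0, map_mul, ← hxx]
    have h2 := congrArg (algebraMap F[X] (RatFunc F)) huv
    rw [map_add, map_mul, map_mul, map_one] at h2
    linear_combination (-x) * h2
  rw [h1]
  exact (hop P hP _ _ (hdv P v hP).1 hx).2.1

/-- the local inequality for one matrix -/
theorem core (hLLG : LLGStmt) (hCPP : CPPStmt) (hRIP : RIPStmt) (hPOL : POLStmt)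
    {F : Type} [Field F] [Finite F] (h2 : (2 : F) ≠ 0) {P : F[X]} (hPm : P.Monic)
    (hPi : Irreducible P) (B : Matrix (Fin 3) (Fin 3) F[X]) (hB : Bᵀ = B)
    (hd : ¬ P ^ 2 ∣ dB B) :
    (SmF (B.map (AdjoinRoot.mk P))).ncard * Nat.card F ^ P.natDegree ≤
      (Nat.card F ^ P.natDegree - 1) * (nE (AdjoinRoot (P ^ 2)) (AdjoinRoot.mk (P ^ 2) (ia B))
        (AdjoinRoot.mk (P ^ 2) (ib B)) (AdjoinRoot.mk (P ^ 2) (ic B)) +
        Nat.card F ^ P.natDegree) := by
  have hfac : Fact (Irreducible P) := ⟨hPi⟩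
  obtain ⟨hfinP, hcP⟩ := card_adj hPm
  obtain ⟨-, hop, hdv, -⟩ := hPOL F
  -- the place
  let v : IsDedekindDomain.HeightOneSpectrum F[X] :=
    ⟨Ideal.span {P}, (Ideal.span_singleton_prime hPi.ne_zero).mpr hPi.prime, by
      rw [Ne, Ideal.span_singleton_eq_bot]
      exact hPi.ne_zero⟩
  have hC := hCPP F h2 P hPm hPi v rfl
  set L := v.adicCompletion (RatFunc F)
  set O := v.adicCompletionIntegers (RatFunc F)
  set ι : RatFunc F →+* L := algebraMap (RatFunc F) (v.adicCompletion (RatFunc F)) with hι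
  obtain ⟨hkap, -, hON⟩ := hRIP F P hPm hPi L O ι hC
  obtain ⟨e, he⟩ := hON 2
  set al := algebraMap F[X] (RatFunc F) with hal
  have hmemI : ∀ p : F[X], al p ∈ IP P := fun p => (hdv P p hPi).1
  have hmemO : ∀ p : F[X], ι (al p) ∈ O := fun p => (hC.mem _).mpr (hmemI p)
  have hdiv1 : ∀ p : F[X], (al p / al P ∈ IP P ↔ P ∣ p) := by
    intro p
    have := (hdv P p hPi).2 1
    rwa [pow_one, pow_one] at this
  have hadd : ∀ x y : RatFunc F, x ∈ IP P → y ∈ IP P → x + y ∈ IP P :=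
    fun x y hx hy => (hop P hPi x y hx hy).1
  have hmul : ∀ x y : RatFunc F, x ∈ IP P → y ∈ IP P → x * y ∈ IP P :=
    fun x y hx hy => (hop P hPi x y hx hy).2.1
  have hneg : ∀ x : RatFunc F, x ∈ IP P → -x ∈ IP P :=
    fun x hx => (hop P hPi x x hx hx).2.2
  -- the discriminant
  have hdisc : disc (⟨ι (al (ia B)), hmemO _⟩ : O) ⟨ι (al (ib B)), hmemO _⟩
      ⟨ι (al (ic B)), hmemO _⟩ = ⟨ι (al (dB B)), hmemO _⟩ := by
    apply Subtype.ext
    show disc (ι (al (ia B))) (ι (al (ib B))) (ι (al (ic B))) = ι (al (dB B))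
    simp only [dB, disc, map_sub, map_add, map_mul, map_pow]
    rw [map_ofNat al 4, map_ofNat al 18, map_ofNat al 27, map_ofNat ι 4, map_ofNat ι 18,
      map_ofNat ι 27]
  have hdn : disc (⟨ι (al (ia B)), hmemO _⟩ : O) ⟨ι (al (ib B)), hmemO _⟩
      ⟨ι (al (ic B)), hmemO _⟩ ∉ (IsLocalRing.maximalIdeal O) ^ 2 := by
    intro h
    rw [hdisc, ← Ideal.Quotient.eq_zero_iff_mem] at h
    have h1 := he (dB B) (hmemO _)
    rw [h, map_zero] at h1
    exact hd (AdjoinRoot.mk_eq_zero.mp h1.symm)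
  obtain ⟨M, r, hr, hne, hcard⟩ := orbits (B.map (AdjoinRoot.mk P))
  -- lifts
  have hlift : ∀ i : Fin M, ∃ (z : Fin 3 → F[X]) (w : F[X]),
      (fun j => AdjoinRoot.mk P (z j)) = (r i).1 ∧ AdjoinRoot.mk P w = (r i).2 := by
    intro i
    refine ⟨fun j => lft ((r i).1 j), lft (r i).2, ?_, mk_lft _⟩
    funext j
    exact mk_lft _
  choose z w hz hw using hlift
  have h1A : ((1 : Matrix (Fin 3) (Fin 3) (RatFunc F))ᵀ * AA (RatFunc F) * 1) = AA (RatFunc F) := by
    rw [Matrix.transpose_one, Matrix.one_mul, Matrix.mul_one]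
  have h1B : ((1 : Matrix (Fin 3) (Fin 3) (RatFunc F))ᵀ * B.map al * 1) = B.map al := by
    rw [Matrix.transpose_one, Matrix.one_mul, Matrix.mul_one]
  have h0I : (0 : RatFunc F) ∈ IP P := by
    have := hmemI 0
    rwa [map_zero] at this
  have h1I : (1 : RatFunc F) ∈ IP P := by
    have := hmemI 1
    rwa [map_one] at this
  have hAm : (AA F[X]).map al = AA (RatFunc F) := AA_map al
  have hAk : (AA F[X]).map (AdjoinRoot.mk P) = AA (AdjoinRoot P) := AA_map _
  have hKP : ∀ i, KP (IP P) (al P) (B.map al) 1 (fun j => al (z i j)) (al (w i)) := by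
    intro i
    obtain ⟨hs1, hs2, hs3, hs4⟩ := hr i
    refine ⟨by rw [Matrix.det_one]; exact one_ne_zero, ?_, ?_, ?_⟩
    · rw [h1A]
      refine ⟨?_, ?_, ?_, ?_⟩
      · intro a b
        rw [← hAm]
        exact hmemI _
      · simp [AA, Matrix.det_fin_three]
      · have : (AA (RatFunc F)).det = -1 := by simp [AA, Matrix.det_fin_three]
        rw [this]
        exact hneg _ h1I
      · have : (AA (RatFunc F)).det = -1 := by simp [AA, Matrix.det_fin_three]
        rw [this, inv_neg, inv_one]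
        exact hneg _ h1I
    · rw [h1B]
      intro a b
      exact hmemI _
    · rw [h1A, h1B]
      refine ⟨fun j => hmemI _, hmemI _, ?_, ?_, ?_, ?_⟩
      · by_contra hcon
        push Not at hcon
        apply hs1
        rw [← hz i]
        funext j
        exact AdjoinRoot.mk_eq_zero.mpr ((hdiv1 _).mp (hcon j))
      · rw [← hAm, bil_map al, hdiv1, ← AdjoinRoot.mk_eq_zero, ← bil_map (AdjoinRoot.mk P), hAk,
          hz i]
        exact hs2
      · rw [bil_map al, ← map_pow, ← map_add, hdiv1, ← AdjoinRoot.mk_eq_zero, map_add, map_pow,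
          ← bil_map (AdjoinRoot.mk P), hz i, hw i]
        exact hs3
      · rintro ⟨hw1, μ, hμ, hμ2⟩
        apply hs4
        obtain ⟨m, hm⟩ := lift_IP hPOL hPi μ hμ
        refine ⟨?_, AdjoinRoot.mk P m, ?_⟩
        · rw [← hw i]
          exact AdjoinRoot.mk_eq_zero.mpr ((hdiv1 _).mp hw1)
        · funext j
          have h3 : al ((B *ᵥ z i) j - m * (AA F[X] *ᵥ z i) j) / al P ∈ IP P := by
            have h4 := hμ2 j
            rw [mulVec_map al, ← hAm, mulVec_map al] at h4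
            have h5 := hmul _ _ hm (hmemI ((AA F[X] *ᵥ z i) j))
            have h6 := hadd _ _ h4 h5
            have h7 : (al ((B *ᵥ z i) j) - μ * al ((AA F[X] *ᵥ z i) j)) / al P +
                (μ - al m) / al P * al ((AA F[X] *ᵥ z i) j) =
                al ((B *ᵥ z i) j - m * (AA F[X] *ᵥ z i) j) / al P := by
              rw [map_sub, map_mul]; ring
            rwa [h7] at h6
          rw [hdiv1, ← AdjoinRoot.mk_eq_zero, map_sub, map_mul, ← mulVec_map (AdjoinRoot.mk P),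
            ← mulVec_map (AdjoinRoot.mk P), hAk, hz i, sub_eq_zero] at h3
          rw [h3]
          rfl
  have hEqv : ∀ i j, i ≠ j → ¬ Eqv (IP P) (al P) 1 (fun k => al (z i k)) (al (w i)) 1
      (fun k => al (z j k)) (al (w j)) := by
    rintro i j hij ⟨κ, -, hκ, t, ht, ht1, ht2⟩
    rw [Matrix.one_mul] at hκ
    subst hκ
    simp only [Matrix.one_mulVec] at ht1
    obtain ⟨m, hm⟩ := lift_IP hPOL hPi t ht.2.1
    have h5 : ∀ x y : F[X], (al y - t * al x) / al P ∈ IP P →
        AdjoinRoot.mk P y = AdjoinRoot.mk P m * AdjoinRoot.mk P x := by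
      intro x y hxy
      have h6 := hadd _ _ hxy (hmul _ _ hm (hmemI x))
      have h7 : (al y - t * al x) / al P + (t - al m) / al P * al x =
          al (y - m * x) / al P := by
        rw [map_sub, map_mul]; ring
      rw [h7, hdiv1, ← AdjoinRoot.mk_eq_zero, map_sub, map_mul, sub_eq_zero] at h6
      exact h6
    apply hne i j hij
    refine ⟨AdjoinRoot.mk P m, ?_, ?_, ?_⟩
    · intro h0
      apply (hr j).1
      rw [← hz j]
      funext k
      have := h5 _ _ (ht1 k)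
      rw [h0, zero_mul] at this
      exact this
    · rw [← hz j, ← hz i]
      funext k
      exact h5 _ _ (ht1 k)
    · rw [← hw j, ← hw i]
      exact h5 _ _ ht2
  have hmain := hLLG F (IP P) (al P) L O ι hC 2 ⟨ι (al (ia B)), hmemO _⟩ ⟨ι (al (ib B)), hmemO _⟩
    ⟨ι (al (ic B)), hmemO _⟩ hdn (B.map al) (by
      ext a b
      show al (B b a) = al (B a b)
      have : B b a = B a b := by
        conv_rhs => rw [← hB]
        rfl
      rw [this]) (by rw [ia_map]) (by rw [ib_map]) (by rw [ic_map]) M (fun _ => 1)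
    (fun i j => al (z i j)) (fun i => al (w i)) hKP hEqv
  rw [nE_equiv e, he, he, he, hkap] at hmain
  have h21 : 2 - 1 = 1 := rfl
  rw [h21, pow_one] at hmain
  rw [hcP] at hcard
  calc (SmF (B.map (AdjoinRoot.mk P))).ncard * Nat.card F ^ P.natDegree
      ≤ ((Nat.card F ^ P.natDegree - 1) * M) * Nat.card F ^ P.natDegree :=
        Nat.mul_le_mul_right _ hcard
    _ = (Nat.card F ^ P.natDegree - 1) * (M * Nat.card F ^ P.natDegree) := by ring
    _ ≤ _ := Nat.mul_le_mul_left _ hmain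

theorem card_sym (R : Type) [CommRing R] :
    {B : Matrix (Fin 3) (Fin 3) R | Bᵀ = B}.ncard = Nat.card R ^ 6 := by
  let f : R × R × R × R × R × R → Matrix (Fin 3) (Fin 3) R := fun x =>
    !![x.1, x.2.1, x.2.2.1; x.2.1, x.2.2.2.1, x.2.2.2.2.1; x.2.2.1, x.2.2.2.2.1, x.2.2.2.2.2]
  have hf : Function.Injective f := by
    rintro ⟨a, b, c, d, e, g⟩ ⟨a', b', c', d', e', g'⟩ h
    have h00 := congrFun (congrFun h 0) 0
    have h01 := congrFun (congrFun h 0) 1
    have h02 := congrFun (congrFun h 0) 2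
    have h11 := congrFun (congrFun h 1) 1
    have h12 := congrFun (congrFun h 1) 2
    have h22 := congrFun (congrFun h 2) 2
    simp only [f, Matrix.of_apply, Matrix.cons_val', Matrix.cons_val_zero, Matrix.cons_val_one,
      Matrix.cons_val, Matrix.cons_val_fin_one] at h00 h01 h02 h11 h12 h22
    simp only [Prod.mk.injEq]
    exact ⟨h00, h01, h02, h11, h12, h22⟩
  have hr : {B : Matrix (Fin 3) (Fin 3) R | Bᵀ = B} = f '' Set.univ := by
    ext B
    constructor
    · intro hB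
      have hB' : Bᵀ = B := hB
      refine ⟨(B 0 0, B 0 1, B 0 2, B 1 1, B 1 2, B 2 2), Set.mem_univ _, ?_⟩
      have h10 : B 1 0 = B 0 1 := by
        conv_lhs => rw [← hB']
        rfl
      have h20 : B 2 0 = B 0 2 := by
        conv_lhs => rw [← hB']
        rfl
      have h21 : B 2 1 = B 1 2 := by
        conv_lhs => rw [← hB']
        rfl
      ext i j
      fin_cases i <;> fin_cases j <;> simp [f, h10, h20, h21]
    · rintro ⟨x, -, rfl⟩
      show (f x)ᵀ = f x
      ext i j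
      fin_cases i <;> fin_cases j <;> simp [f]
  rw [hr, Set.ncard_image_of_injective _ hf, Set.ncard_univ]
  simp only [Nat.card_prod]
  ring

theorem red_map {F : Type} [Field F] (P : F[X]) (B : Matrix (Fin 3) (Fin 3) F[X]) :
    (B.map (AdjoinRoot.mk (P ^ 2))).map (red P 2 one_le_two) = B.map (AdjoinRoot.mk P) := by
  refine Matrix.ext fun i j => ?_
  simp only [Matrix.map_apply, red_mk]

/-- the fibres -/
theorem fibres (hMAS : MASStmt) (hLLG : LLGStmt) (hCPP : CPPStmt) (hRIP : RIPStmt)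
    (hPOL : POLStmt) (hCHI : CHIStmt) (hLDT : LDTStmt) (hLN2 : LN2Stmt)
    {F : Type} [Field F] [Finite F] (h2 : (2 : F) ≠ 0) {P : F[X]} (hPm : P.Monic)
    (hPi : Irreducible P) (a b c : AdjoinRoot (P ^ 2)) (hd : disc a b c ≠ 0) :
    (Fb a b c).ncard = Nat.card F ^ (6 * P.natDegree) - Nat.card F ^ (4 * P.natDegree) ∧
      ∀ B ∈ Fb a b c, (SmF (B.map (red P 2 one_le_two))).Nonempty := by
  have hfac : Fact (Irreducible P) := ⟨hPi⟩
  obtain ⟨hfinP, hcP⟩ := card_adj hPm
  obtain ⟨hfinN, hcN⟩ := card_adj (hPm.pow 2)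
  rw [hPm.natDegree_pow] at hcN
  have hq1 : 1 < Nat.card F := Finite.one_lt_card
  have hPd : P.natDegree ≠ 0 := hPi.natDegree_pos.ne'
  set κ := Nat.card F ^ P.natDegree with hκ
  have hκ1 : 1 < κ := Nat.one_lt_pow hPd hq1
  have hcN' : Nat.card (AdjoinRoot (P ^ 2)) = κ ^ 2 := by
    rw [hcN, hκ, ← pow_mul, mul_comm]
  have h6 : Nat.card F ^ (6 * P.natDegree) = κ ^ 6 := by rw [hκ, ← pow_mul, mul_comm]
  have h4 : Nat.card F ^ (4 * P.natDegree) = κ ^ 4 := by rw [hκ, ← pow_mul, mul_comm]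
  rw [h6, h4]
  have h2N : IsUnit (2 : AdjoinRoot (P ^ 2)) := by
    have : IsUnit ((algebraMap F (AdjoinRoot (P ^ 2))) 2) := (isUnit_iff_ne_zero.mpr h2).map _
    rwa [map_ofNat] at this
  obtain ⟨hL2, -, hres⟩ := (hLN2 F).1 P hPm hPi
  have hfib : Fib a b c = Fb a b c := by
    ext B
    constructor
    · rintro ⟨h1, h3⟩
      exact ⟨h1, ((hCHI _ B h1).2 a b c).mp h3⟩
    · rintro ⟨h1, h3⟩
      exact ⟨h1, ((hCHI _ B h1).2 a b c).mpr h3⟩
  have hup : (Fb a b c).ncard ≤ κ ^ 6 - κ ^ 4 := by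
    have := (hLDT (AdjoinRoot (P ^ 2)) (AdjoinRoot.mk (P ^ 2) P) hL2 h2N a b c hd).1
    rwa [hfib, hres] at this
  set E := nE (AdjoinRoot (P ^ 2)) a b c with hE
  have hcore : ∀ B ∈ Fb a b c,
      (SmF (B.map (red P 2 one_le_two))).ncard * κ ≤ (κ - 1) * (E + κ) := by
    rintro B ⟨hB1, hB2, hB3, hB4⟩
    have hl : (B.map lft).map (AdjoinRoot.mk (P ^ 2)) = B := map_lft B
    have h := core hLLG hCPP hRIP hPOL h2 hPm hPi (B.map lft) (by
      refine Matrix.ext fun i j => ?_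
      show lft (B j i) = lft (B i j)
      have : B j i = B i j := by
        conv_rhs => rw [← hB1]
        rfl
      rw [this]) (by
      intro hdvd
      apply hd
      rw [← AdjoinRoot.mk_eq_zero, ← dB_map, hl] at hdvd
      rw [← hB2, ← hB3, ← hB4]
      exact hdvd)
    rw [← ia_map, ← ib_map, ← ic_map, hl, hB2, hB3, hB4, ← red_map, hl] at h
    exact h
  have hfinFb : (Fb a b c).Finite := Set.toFinite _
  have hmas := hMAS (AdjoinRoot (P ^ 2)) (AdjoinRoot P) (red P 2 one_le_two)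
    (red_surj P 2 one_le_two) (red_unit hPi 2 one_le_two) h2N a b c
  rw [finsum_mem_eq_finite_toFinset_sum _ hfinFb, hcN', hcP] at hmas
  set SF := hfinFb.toFinset with hSF
  have hSFc : (Fb a b c).ncard = SF.card := Set.ncard_eq_toFinset_card _ hfinFb
  have hmem : ∀ B, B ∈ SF ↔ B ∈ Fb a b c := fun B => hfinFb.mem_toFinset
  have hκr : (1 : ℝ) < κ := by exact_mod_cast hκ1
  have hκ0 : (0 : ℝ) < κ := by linarith
  have hE0 : (0 : ℝ) ≤ (E : ℝ) := Nat.cast_nonneg _
  set T : ℝ := ((κ : ℝ) - 1) * ((E : ℝ) + κ) with hT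
  have hT0 : 0 < T := mul_pos (by linarith) (by linarith)
  have hcr : ∀ B ∈ SF, ((SmF (B.map (red P 2 one_le_two))).ncard : ℝ) * κ ≤ T := by
    intro B hB
    have h := hcore B ((hmem B).mp hB)
    have h3 : 1 ≤ κ := hκ1.le
    have h5 := (Nat.cast_le (α := ℝ)).mpr h
    push_cast [Nat.cast_sub h3] at h5
    exact h5
  have hsum : (∑ B ∈ SF, ((SmF (B.map (red P 2 one_le_two))).ncard : ℝ)) * κ =
      ((κ : ℝ) ^ 6 - κ ^ 4) * T := by
    have h7 : (κ : ℝ) ^ 2 * (∑ B ∈ SF, ((SmF (B.map (red P 2 one_le_two))).ncard : ℝ)) =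
        (κ : ℝ) ^ 2 * ((κ : ℝ) ^ 3 * ((κ : ℝ) ^ 2 - 1) * T) := by
      rw [hmas, hT]
      push_cast
      ring
    have h8 := mul_left_cancel₀ (pow_ne_zero 2 hκ0.ne') h7
    rw [h8]; ring
  have hle : ((κ : ℝ) ^ 6 - κ ^ 4) * T ≤ SF.card * T := by
    rw [← hsum, Finset.sum_mul]
    calc (∑ B ∈ SF, ((SmF (B.map (red P 2 one_le_two))).ncard : ℝ) * κ) ≤ ∑ _B ∈ SF, T :=
        Finset.sum_le_sum hcr
      _ = SF.card * T := by rw [Finset.sum_const, nsmul_eq_mul]
  have hge : (κ : ℝ) ^ 6 - κ ^ 4 ≤ SF.card := le_of_mul_le_mul_right hle hT0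
  have h64 : κ ^ 4 ≤ κ ^ 6 := Nat.pow_le_pow_right (by omega) (by norm_num)
  have hgeN : κ ^ 6 - κ ^ 4 ≤ SF.card := by
    have : ((κ ^ 6 - κ ^ 4 : ℕ) : ℝ) ≤ (SF.card : ℝ) := by
      rw [Nat.cast_sub h64]
      push_cast
      exact hge
    exact_mod_cast this
  have hcard : SF.card = κ ^ 6 - κ ^ 4 := le_antisymm (by rw [← hSFc]; exact hup) hgeN
  refine ⟨by rw [hSFc, hcard], ?_⟩
  intro B hB
  have hz : ∑ B ∈ SF, (T - ((SmF (B.map (red P 2 one_le_two))).ncard : ℝ) * κ) = 0 := by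
    have e1 : (∑ B ∈ SF, ((SmF (B.map (red P 2 one_le_two))).ncard : ℝ) * κ) =
        ((κ : ℝ) ^ 6 - κ ^ 4) * T := by
      rw [← Finset.sum_mul]
      exact hsum
    rw [Finset.sum_sub_distrib, e1, Finset.sum_const, nsmul_eq_mul, hcard, Nat.cast_sub h64]
    push_cast
    ring
  have hz2 := (Finset.sum_eq_zero_iff_of_nonneg (fun B hB => sub_nonneg.mpr (hcr B hB))).mp hz B
    ((hmem B).mpr hB)
  rw [Set.nonempty_iff_ne_empty]
  intro hem
  rw [hem, Set.ncard_empty] at hz2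
  push_cast at hz2
  linarith

end LDE

open LDE LVF in
theorem lde_thm (hMAS : MASStmt) (hLLG : LLGStmt) (hCPP : CPPStmt) (hRIP : RIPStmt)
    (hPOL : POLStmt) (hCHI : CHIStmt) (hLDT : LDTStmt) (hLN2 : LN2Stmt) (hDEL : DELStmt)
    (hDE5 : DE5Stmt) : LDEStmt := by
  intro F _ _ h2 P hPm hPi
  have hfac : Fact (Irreducible P) := ⟨hPi⟩
  obtain ⟨hfinN, hcN⟩ := card_adj (hPm.pow 2)
  rw [hPm.natDegree_pow] at hcN
  refine ⟨?_, ?_, ?_⟩
  · intro a b c hd
    exact (fibres hMAS hLLG hCPP hRIP hPOL hCHI hLDT hLN2 h2 hPm hPi a b c hd).1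
  · intro B hB hd
    have h := (fibres hMAS hLLG hCPP hRIP hPOL hCHI hLDT hLN2 h2 hPm hPi
      (AdjoinRoot.mk (P ^ 2) (ia B)) (AdjoinRoot.mk (P ^ 2) (ib B)) (AdjoinRoot.mk (P ^ 2) (ic B))
      (by
        intro h0
        apply hd
        rw [← AdjoinRoot.mk_eq_zero, ← dB_map]
        rw [← ia_map, ← ib_map, ← ic_map] at h0
        exact h0)).2 (B.map (AdjoinRoot.mk (P ^ 2))) ⟨by
          ext i j
          show AdjoinRoot.mk (P ^ 2) (B j i) = AdjoinRoot.mk (P ^ 2) (B i j)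
          have : B j i = B i j := by
            conv_rhs => rw [← hB]
            rfl
          rw [this], ia_map _ _, ib_map _ _, ic_map _ _⟩
    rwa [red_map] at h
  · classical
    obtain ⟨hL2, -, hres⟩ := (hLN2 F).1 P hPm hPi
    have hq1 : 1 < Nat.card F := Finite.one_lt_card
    have hPd : P.natDegree ≠ 0 := hPi.natDegree_pos.ne'
    have h2N : IsUnit (2 : AdjoinRoot (P ^ 2)) := by
      have : IsUnit ((algebraMap F (AdjoinRoot (P ^ 2))) 2) := (isUnit_iff_ne_zero.mpr h2).map _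
      rwa [map_ofNat] at this
    have hdens : 1 - 2 / (res (AdjoinRoot.mk (P ^ 2) P) : ℝ) ^ 2 ≤ dens (AdjoinRoot (P ^ 2)) := by
      by_cases h3 : (3 : F) = 0
      · refine hDEL (AdjoinRoot (P ^ 2)) (AdjoinRoot.mk (P ^ 2) P) hL2 ?_
        have : (algebraMap F (AdjoinRoot (P ^ 2))) 3 = 0 := by rw [h3, map_zero]
        rwa [map_ofNat] at this
      · refine hDE5 (AdjoinRoot (P ^ 2)) (AdjoinRoot.mk (P ^ 2) P) hL2 h2N ?_
        have : IsUnit ((algebraMap F (AdjoinRoot (P ^ 2))) 3) := (isUnit_iff_ne_zero.mpr h3).map _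
        rwa [map_ofNat] at this
    rw [hres] at hdens
    set κ := Nat.card F ^ P.natDegree with hκ
    have hκ1 : 1 < κ := Nat.one_lt_pow hPd hq1
    have hcN' : Nat.card (AdjoinRoot (P ^ 2)) = κ ^ 2 := by
      rw [hcN, hκ, ← pow_mul, mul_comm]
    have hκr : (1 : ℝ) < κ := by exact_mod_cast hκ1
    have hκ0 : (0 : ℝ) < κ := by linarith
    -- the numbers
    have : Fintype (AdjoinRoot (P ^ 2)) := Fintype.ofFinite _
    set U : Finset (AdjoinRoot (P ^ 2) × AdjoinRoot (P ^ 2) × AdjoinRoot (P ^ 2)) :=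
      Finset.univ.filter (fun t => disc t.1 t.2.1 t.2.2 ≠ 0) with hU
    set W : Finset (Matrix (Fin 3) (Fin 3) (AdjoinRoot (P ^ 2))) :=
      Finset.univ.filter (fun B => Bᵀ = B ∧ dB B ≠ 0) with hW
    set Z : Finset (Matrix (Fin 3) (Fin 3) (AdjoinRoot (P ^ 2))) :=
      Finset.univ.filter (fun B => Bᵀ = B ∧ dB B = 0) with hZ
    have hUc : {t : AdjoinRoot (P ^ 2) × AdjoinRoot (P ^ 2) × AdjoinRoot (P ^ 2) |
        disc t.1 t.2.1 t.2.2 ≠ 0}.ncard = U.card := by
      rw [← Set.ncard_coe_finset]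
      congr 1
      ext t
      simp [hU]
    have hZc : {B : Matrix (Fin 3) (Fin 3) (AdjoinRoot (P ^ 2)) | Bᵀ = B ∧ dB B = 0}.ncard =
        Z.card := by
      rw [← Set.ncard_coe_finset]
      congr 1
      ext t
      simp [hZ]
    have hsymc : Z.card + W.card = κ ^ 12 := by
      have h1 := card_sym (AdjoinRoot (P ^ 2))
      have h3 : {B : Matrix (Fin 3) (Fin 3) (AdjoinRoot (P ^ 2)) | Bᵀ = B} =
          ((Z ∪ W : Finset _) : Set (Matrix (Fin 3) (Fin 3) (AdjoinRoot (P ^ 2)))) := by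
        ext B
        simp only [Set.mem_ofPred_eq, Finset.coe_union, Set.mem_union, Finset.mem_coe, hZ, hW,
          Finset.mem_filter, Finset.mem_univ, true_and]
        tauto
      rw [h3, Set.ncard_coe_finset, Finset.card_union_of_disjoint, hcN'] at h1
      · rw [h1]; ring
      · rw [Finset.disjoint_left]
        intro B hB hB'
        simp only [hZ, hW, Finset.mem_filter, Finset.mem_univ, true_and] at hB hB'
        exact hB'.2 hB.2
    have hWc : W.card = U.card * (κ ^ 6 - κ ^ 4) := by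
      rw [Finset.card_eq_sum_card_fiberwise (f := fun B => (ia B, ib B, ic B)) (t := U)]
      · rw [← smul_eq_mul, ← Finset.sum_const]
        refine Finset.sum_congr rfl fun t ht => ?_
        have htd : disc t.1 t.2.1 t.2.2 ≠ 0 := by
          simpa [hU] using ht
        have h1 := (fibres hMAS hLLG hCPP hRIP hPOL hCHI hLDT hLN2 h2 hPm hPi t.1 t.2.1 t.2.2
          htd).1
        have h6 : Nat.card F ^ (6 * P.natDegree) = κ ^ 6 := by rw [hκ, ← pow_mul, mul_comm]
        have h4 : Nat.card F ^ (4 * P.natDegree) = κ ^ 4 := by rw [hκ, ← pow_mul, mul_comm]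
        rw [h6, h4] at h1
        rw [← h1, ← Set.ncard_coe_finset]
        congr 1
        ext B
        simp only [Finset.coe_filter, hW, Finset.mem_filter, Finset.mem_univ, true_and,
          Set.mem_ofPred_eq, Fb, Prod.ext_iff]
        constructor
        · rintro ⟨⟨h5, -⟩, h7, h8, h9⟩
          exact ⟨h5, h7, h8, h9⟩
        · rintro ⟨h5, h7, h8, h9⟩
          refine ⟨⟨h5, ?_⟩, h7, h8, h9⟩
          rw [dB, h7, h8, h9]
          exact htd
      · intro B hB
        simp only [hW, Finset.coe_filter, Finset.mem_univ, true_and, Set.mem_ofPred_eq] at hB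
        simp only [hU, Finset.coe_filter, Finset.mem_univ, true_and, Set.mem_ofPred_eq]
        exact hB.2
    rw [dens, hUc, hcN'] at hdens
    rw [hZc]
    have h10 : (Nat.card F : ℝ) ^ (10 * P.natDegree) = (κ : ℝ) ^ 10 := by
      rw [hκ]; push_cast; rw [← pow_mul, mul_comm]
    rw [h10]
    have h64 : κ ^ 4 ≤ κ ^ 6 := Nat.pow_le_pow_right (by omega) (by norm_num)
    have hZr : (Z.card : ℝ) = (κ : ℝ) ^ 12 - U.card * ((κ : ℝ) ^ 6 - κ ^ 4) := by
      have h1 : ((Z.card + W.card : ℕ) : ℝ) = ((κ ^ 12 : ℕ) : ℝ) := by rw [hsymc]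
      rw [hWc] at h1
      push_cast [Nat.cast_sub h64] at h1
      linarith
    have hUr : (κ : ℝ) ^ 6 - 2 * κ ^ 4 ≤ U.card := by
      have h1 : (1 - 2 / (κ : ℝ) ^ 2) * ((κ : ℝ) ^ 2) ^ 3 ≤ U.card := by
        rw [le_div_iff₀ (by positivity)] at hdens
        push_cast at hdens
        exact hdens
      have h3 : (1 - 2 / (κ : ℝ) ^ 2) * ((κ : ℝ) ^ 2) ^ 3 = (κ : ℝ) ^ 6 - 2 * κ ^ 4 := by
        field_simp
      rwa [h3] at h1
    rw [hZr]
    have h5 : (0 : ℝ) ≤ (κ : ℝ) ^ 6 - κ ^ 4 := by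
      have : (κ : ℝ) ^ 6 - κ ^ 4 = (κ : ℝ) ^ 4 * ((κ : ℝ) ^ 2 - 1) := by ring
      rw [this]
      apply mul_nonneg (by positivity)
      nlinarith
    have h7 := mul_le_mul_of_nonneg_right hUr h5
    have h8 : (0 : ℝ) ≤ (κ : ℝ) ^ 8 := by positivity
    nlinarith

end Pool.AVS
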